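import Pool.Agent.Helper56.RZ.GoalsB

/-!
# Project RZ, packet G2: `C^r` smallness of the perturbation
-/

set_option autoImplicit false

open Set Filter Topology MeasureTheory

open scoped ContDiff

namespace Pool.Agent.Helper62.RZ

open Pool.Agent.Helper56.RZ

section general

variable {Y F : Type*} [NormedAddCommGroup Y] [NormedSpace ℝ Y] [NormedAddCommGroup F]
  [NormedSpace ℝ F]


/-- mean value inequality on the line from `0` -/
theorem mv (f f' : ℝ → F) (hf : ∀ x, HasDerivAt f (f' x) x) (h0 : f 0 = 0) (s B : ℝ)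
    (hB : ∀ x, |x| ≤ |s| → ‖f' x‖ ≤ B) : ‖f s‖ ≤ B * |s| := by
  have hc : Convex ℝ (Metric.closedBall (0 : ℝ) |s|) := convex_closedBall _ _
  have := hc.norm_image_sub_le_of_norm_hasDerivWithin_le (f := f) (f' := f') (C := B)
    (x := 0) (y := s) (fun x _ => (hf x).hasDerivWithinAt)
    (fun x hx => hB x (by simpa using hx)) (by simp) (by simp)
  simpa [h0] using this

/-- derivative of an iterated derivative along a direction -/
theorem der_iter {Z : Type*} [NormedAddCommGroup Z] [NormedSpace ℝ Z] (g : Z → F)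
    (hg : ContDiff ℝ ∞ g) (k : ℕ) (m : Fin k → Z) (a v : Z) (s : ℝ) :
    HasDerivAt (fun s : ℝ => iteratedFDeriv ℝ k g (a + s • v) m)
      (iteratedFDeriv ℝ (k + 1) g (a + s • v) (Fin.cons v m)) s := by
  have h1 : Differentiable ℝ (iteratedFDeriv ℝ k g) :=
    hg.differentiable_iteratedFDeriv (by exact_mod_cast WithTop.coe_lt_top _)
  have h2 := (h1 (a + s • v)).hasFDerivAt
  have h3 : HasDerivAt (fun s : ℝ => a + s • v) v s := by
    simpa using ((hasDerivAt_id s).smul_const v).const_add a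
  have h4 := h2.comp_hasDerivAt s h3
  have h5 : HasFDerivAt (fun T : ContinuousMultilinearMap ℝ (fun _ : Fin k => Z) F => T m)
      (ContinuousMultilinearMap.apply ℝ (fun _ : Fin k => Z) F m)
      (iteratedFDeriv ℝ k g (a + s • v)) :=
    (ContinuousMultilinearMap.apply ℝ (fun _ : Fin k => Z) F m).hasFDerivAt
  have h6 := h5.comp_hasDerivAt s h4
  rw [iteratedFDeriv_succ_apply_left]
  simpa [Function.comp_def] using h6

/-- Hadamard: a smooth function of `(ρ, t, y)` which vanishes for `ρ = 0` and for `t = 0` -/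
theorem hadamard (g : ℝ × ℝ × Y → F) (hg : ContDiff ℝ ∞ g) (h1 : ∀ t y, g (0, t, y) = 0)
    (h2 : ∀ r y, g (r, 0, y) = 0) (k : ℕ) (S : ℝ) (ρ t : ℝ) (y : Y) (hS0 : 0 ≤ S)
    (hS : ∀ ρ' t', |ρ'| ≤ |ρ| → |t'| ≤ |t| → ‖iteratedFDeriv ℝ (k + 2) g (ρ', t', y)‖ ≤ S) :
    ‖iteratedFDeriv ℝ k (fun y => g (ρ, t, y)) y‖ ≤ S * |t| * |ρ| := by
  -- the inclusions
  let i0 : Y →L[ℝ] ℝ × ℝ × Y :=
    (ContinuousLinearMap.inr ℝ ℝ (ℝ × Y)).comp (ContinuousLinearMap.inr ℝ ℝ Y)
  let i1 : (ℝ × Y) →L[ℝ] ℝ × ℝ × Y := ContinuousLinearMap.inr ℝ ℝ (ℝ × Y)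
  let i2 : (ℝ × Y) →L[ℝ] ℝ × ℝ × Y :=
    (ContinuousLinearMap.fst ℝ ℝ Y).prod
      ((0 : (ℝ × Y) →L[ℝ] ℝ).prod (ContinuousLinearMap.snd ℝ ℝ Y))
  have e0 : ∀ z : Y, i0 z = (0, 0, z) := fun z => rfl
  have e1 : ∀ z : ℝ × Y, i1 z = (0, z.1, z.2) := fun z => rfl
  have e2 : ∀ z : ℝ × Y, i2 z = (z.1, 0, z.2) := fun z => rfl
  -- vanishing along the two hyperplanes
  have v1 : ∀ (j : ℕ) (t' : ℝ) (m : Fin j → ℝ × Y),
      iteratedFDeriv ℝ j g (0, t', y) (fun l => i1 (m l)) = 0 := by
    intro j t' m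
    have h := i1.iteratedFDeriv_comp_right hg (t', y) (i := j)
      (by exact_mod_cast le_top)
    have hz : g ∘ i1 = fun _ => (0 : F) := by
      funext z
      simp [Function.comp, e1, h1]
    rw [hz] at h
    have h' := congrArg (fun T => T m) h
    simp only [ContinuousMultilinearMap.compContinuousLinearMap_apply] at h'
    rw [e1] at h'
    rw [← h']
    rw [iteratedFDeriv_fun_zero]
    simp
  have v2 : ∀ (j : ℕ) (r : ℝ) (m : Fin j → ℝ × Y),
      iteratedFDeriv ℝ j g (r, 0, y) (fun l => i2 (m l)) = 0 := by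
    intro j r m
    have h := i2.iteratedFDeriv_comp_right hg (r, y) (i := j)
      (by exact_mod_cast le_top)
    have hz : g ∘ i2 = fun _ => (0 : F) := by
      funext z
      simp [Function.comp, e2, h2]
    rw [hz] at h
    have h' := congrArg (fun T => T m) h
    simp only [ContinuousMultilinearMap.compContinuousLinearMap_apply] at h'
    rw [e2] at h'
    rw [← h']
    rw [iteratedFDeriv_fun_zero]
    simp
  -- the partial derivative in terms of the total derivative
  have hp : iteratedFDeriv ℝ k (fun y => g (ρ, t, y)) y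
      = (iteratedFDeriv ℝ k g (ρ, t, y)).compContinuousLinearMap (fun _ => i0) := by
    have hg' : ContDiff ℝ ∞ (fun z => g ((ρ, t, 0) + z)) :=
      hg.comp (contDiff_const.add contDiff_id)
    have h := i0.iteratedFDeriv_comp_right hg' y (i := k) (by exact_mod_cast le_top)
    rw [iteratedFDeriv_comp_add_left] at h
    have hz : (fun z => g ((ρ, t, 0) + z)) ∘ i0 = fun y => g (ρ, t, y) := by
      funext z
      simp [Function.comp, e0]
    rw [hz] at h
    rw [h, e0]
    simp
  rw [hp]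
  refine ContinuousMultilinearMap.opNorm_le_bound (by positivity) fun m => ?_
  rw [ContinuousMultilinearMap.compContinuousLinearMap_apply]
  set m' : Fin k → ℝ × ℝ × Y := fun l => i0 (m l) with hm'
  set P : ℝ := ∏ l, ‖m l‖ with hP
  have hP0 : 0 ≤ P := Finset.prod_nonneg fun _ _ => norm_nonneg _
  have hnm : ∀ l, ‖m' l‖ = ‖m l‖ := by
    intro l
    rw [hm']
    simp only [e0, Prod.norm_def, norm_zero]
    rw [max_eq_right (norm_nonneg _), max_eq_right (norm_nonneg _)]
  -- first derivative in `ρ`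
  set u : ℝ × ℝ × Y := (1, 0, 0) with hu
  set v : ℝ × ℝ × Y := (0, 1, 0) with hv
  have hd1 : ∀ t' s : ℝ, HasDerivAt
      (fun s : ℝ => iteratedFDeriv ℝ k g (s, t', y) m')
      (iteratedFDeriv ℝ (k + 1) g (s, t', y) (Fin.cons u m')) s := by
    intro t' s
    have h := der_iter g hg k m' (0, t', y) u s
    simpa [hu] using h
  have hd2 : ∀ s t' : ℝ, HasDerivAt
      (fun t' : ℝ => iteratedFDeriv ℝ (k + 1) g (s, t', y) (Fin.cons u m'))
      (iteratedFDeriv ℝ (k + 2) g (s, t', y) (Fin.cons v (Fin.cons u m'))) t' := by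
    intro s t'
    have h := der_iter g hg (k + 1) (Fin.cons u m') (s, 0, y) v t'
    simpa [hv] using h
  have z1 : iteratedFDeriv ℝ k g (0, t, y) m' = 0 := by
    have := v1 k t (fun l => (0, m l))
    simpa [e1, hm', e0] using this
  have z2 : ∀ s, iteratedFDeriv ℝ (k + 1) g (s, 0, y) (Fin.cons u m') = 0 := by
    intro s
    have := v2 (k + 1) s (Fin.cons (1, 0) (fun l => (0, m l)))
    have h : (fun l => i2 ((Fin.cons (1, 0) (fun l => (0, m l)) : Fin (k + 1) → ℝ × Y) l))
        = (Fin.cons u m' : Fin (k + 1) → ℝ × ℝ × Y) := by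
      funext l
      refine Fin.cases ?_ (fun l => ?_) l
      · simp [e2, hu]
      · simp [e2, hm', e0]
    rw [h] at this
    exact this
  have b2 : ∀ s t' : ℝ, |s| ≤ |ρ| → |t'| ≤ |t| →
      ‖iteratedFDeriv ℝ (k + 2) g (s, t', y) (Fin.cons v (Fin.cons u m'))‖ ≤ S * P := by
    intro s t' hs ht
    refine (ContinuousMultilinearMap.le_opNorm _ _).trans ?_
    have hprod : ∏ l, ‖(Fin.cons v (Fin.cons u m') : Fin (k + 2) → ℝ × ℝ × Y) l‖ = P := by
      rw [Fin.prod_univ_succ, Fin.prod_univ_succ]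
      simp only [Fin.cons_zero, Fin.cons_succ, hnm]
      have n1 : ‖u‖ = 1 := by simp [hu, Prod.norm_def]
      have n2 : ‖v‖ = 1 := by simp [hv, Prod.norm_def]
      rw [n1, n2, one_mul, one_mul]
    rw [hprod]
    exact mul_le_mul_of_nonneg_right (hS s t' hs ht) hP0
  have b1 : ∀ s : ℝ, |s| ≤ |ρ| →
      ‖iteratedFDeriv ℝ (k + 1) g (s, t, y) (Fin.cons u m')‖ ≤ S * P * |t| := by
    intro s hs
    exact mv _ _ (hd2 s) (z2 s) t (S * P) (fun x hx => b2 s x hs hx)
  have b0 := mv _ _ (hd1 t) z1 ρ (S * P * |t|) b1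
  calc ‖iteratedFDeriv ℝ k g (ρ, t, y) m'‖ ≤ S * P * |t| * |ρ| := b0
    _ = S * |t| * |ρ| * P := by ring

/-- natural numbers are below `∞` -/
theorem le_inf (k : ℕ) : (k : WithTop ℕ∞) ≤ ∞ := by exact_mod_cast le_top

/-- a common constant for finitely many orders -/
theorem unif (Q : ℕ → ℝ → Prop) (hm : ∀ k C C', C ≤ C' → Q k C → Q k C')
    (h : ∀ k, ∃ C, Q k C) (r : ℕ) : ∃ C, 1 ≤ C ∧ ∀ k ≤ r, Q k C := by
  induction r with
  | zero =>
    obtain ⟨C, hC⟩ := h 0
    refine ⟨max 1 C, le_max_left _ _, fun k hk => ?_⟩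
    obtain rfl : k = 0 := by omega
    exact hm _ _ _ (le_max_right _ _) hC
  | succ r ih =>
    obtain ⟨C, h1, hC⟩ := ih
    obtain ⟨C', hC'⟩ := h (r + 1)
    refine ⟨max C C', h1.trans (le_max_left _ _), fun k hk => ?_⟩
    rcases Nat.lt_or_ge k (r + 1) with h' | h'
    · exact hm _ _ _ (le_max_left _ _) (hC k (by omega))
    · obtain rfl : k = r + 1 := by omega
      exact hm _ _ _ (le_max_right _ _) hC'

end general

/-- a bump function times a function smooth on a neighbourhood of its support -/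
theorem bump_smul' {N : ℕ} {F : Type*} [NormedAddCommGroup F] [NormedSpace ℝ F] {x0 : E N}
    (b : ContDiffBump x0) {W : Set (E N)} (hW : IsOpen W)
    (hs : Metric.closedBall x0 b.rOut ⊆ W) (f : E N → F) (hf : ContDiffOn ℝ ∞ f W) :
    ContDiff ℝ ∞ (fun x => b x • f x) ∧ HasCompactSupport (fun x => b x • f x) := by
  constructor
  · rw [contDiff_iff_contDiffAt]
    intro x
    by_cases hx : x ∈ W
    · exact b.contDiff.contDiffAt.smul (hf.contDiffAt (hW.mem_nhds hx))
    · have h1 : x ∉ tsupport b := by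
        rw [b.tsupport_eq]
        exact fun h => hx (hs h)
      have h2 := notMem_tsupport_iff_eventuallyEq.1 h1
      have h3 : (fun x => b x • f x) =ᶠ[𝓝 x] fun _ => (0 : F) := by
        filter_upwards [h2] with z hz
        rw [hz]
        simp
      exact contDiffAt_const.congr_of_eventuallyEq h3
  · exact b.hasCompactSupport.smul_right

/-- bounds of the derivatives of a compactly supported smooth function -/
theorem cs_bound {N : ℕ} {F : Type*} [NormedAddCommGroup F] [NormedSpace ℝ F] (f : E N → F)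
    (hf : ContDiff ℝ ∞ f) (hs : HasCompactSupport f) (r : ℕ) :
    ∃ C, 1 ≤ C ∧ ∀ k ≤ r, ∀ x, ‖iteratedFDeriv ℝ k f x‖ ≤ C := by
  refine unif (fun k C => ∀ x, ‖iteratedFDeriv ℝ k f x‖ ≤ C)
    (fun k C C' h h' x => (h' x).trans h) (fun k => ?_) r
  exact (hs.iteratedFDeriv k).exists_bound_of_continuous
    (hf.continuous_iteratedFDeriv (by exact_mod_cast le_top))

/-- PACKET G2 -/
theorem g2 : StmtF1 → StmtG2 := by
  intro hF1 N K r M c p hp d z0 hz0
  obtain ⟨-, hF⟩ := hF1 N p hp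
  obtain ⟨hH, -, -, hqH, -, hH0, hH1, cq, hcq, hq⟩ := hF d
  set x0 : E K := c.ψ z0 with hx0
  have hx0W : x0 ∈ c.W := (c.mapsψ z0 hz0).2
  -- the bump functions around `x0`
  obtain ⟨a4, ha4, hW4⟩ := Metric.nhds_basis_closedBall.mem_iff.1 (c.openW.mem_nhds hx0W)
  set a : ℝ := a4 / 4 with ha
  have ha0 : 0 < a := by positivity
  let b1 : ContDiffBump x0 := ⟨a, 2 * a, ha0, by linarith⟩
  let b2 : ContDiffBump x0 := ⟨2 * a, 3 * a, by positivity, by linarith⟩
  have hb2W : Metric.closedBall x0 b2.rOut ⊆ c.W := by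
    refine (Metric.closedBall_subset_closedBall ?_).trans hW4
    change 3 * a ≤ a4
    rw [ha]
    linarith
  have hb1W : Metric.closedBall x0 b1.rOut ⊆ c.W := by
    refine (Metric.closedBall_subset_closedBall ?_).trans hW4
    change 2 * a ≤ a4
    rw [ha]
    linarith
  -- the bump function around `z0`
  have hψc : ContinuousAt c.ψ z0 :=
    (c.smoothψ.contDiffAt (c.openV.mem_nhds hz0)).continuousAt
  have hnhd : c.V ∩ c.ψ ⁻¹' (Metric.closedBall x0 a) ∈ 𝓝 z0 :=
    inter_mem (c.openV.mem_nhds hz0) (hψc.preimage_mem_nhds (Metric.closedBall_mem_nhds _ ha0))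
  obtain ⟨r2, hr2, hV2⟩ := Metric.nhds_basis_closedBall.mem_iff.1 hnhd
  set r1 : ℝ := r2 / 2 with hr1
  have hr10 : 0 < r1 := by positivity
  let b3 : ContDiffBump z0 := ⟨r1, r2, hr10, by rw [hr1]; linarith⟩
  have hr12 : Metric.closedBall z0 r1 ⊆ Metric.closedBall z0 r2 :=
    Metric.closedBall_subset_closedBall (by rw [hr1]; linarith)
  have hb3V : Metric.closedBall z0 b3.rOut ⊆ c.V := fun z hz => (hV2 hz).1
  have hVa : ∀ z ∈ Metric.closedBall z0 r1, z ∈ c.V ∧ c.ψ z ∈ Metric.closedBall x0 a :=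
    fun z hz => ⟨(hV2 (hr12 hz)).1, (hV2 (hr12 hz)).2⟩
  -- the global functions
  obtain ⟨hψt, -⟩ := bump_smul' b3 c.openV hb3V c.ψ c.smoothψ
  set ψt : E N → E K := fun z => b3 z • c.ψ z with hψtdef
  have hψt1 : ∀ z ∈ Metric.closedBall z0 r1, ψt z = c.ψ z := by
    intro z hz
    simp only [hψtdef]
    rw [b3.one_of_mem_closedBall hz, one_smul]
  obtain ⟨hφt, hφs⟩ := bump_smul' b2 c.openW hb2W (fun x => c.φ x - z0)
    (c.smoothφ.sub contDiffOn_const)
  set φt : E K → E N := fun x => b2 x • (c.φ x - z0) with hφtdef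
  have hφt1 : ∀ x ∈ Metric.closedBall x0 (2 * a), φt x = c.φ x - z0 := by
    intro z hz
    simp only [hφtdef]
    rw [b2.one_of_mem_closedBall hz, one_smul]
  let G : ℝ × ℝ × E N → E K := fun s =>
    ψt (z0 + s.1 • d.H s.2.1 s.2.2) - ψt (z0 + s.1 • s.2.2)
  have hG : ContDiff ℝ ∞ G := by
    have h1 : ContDiff ℝ ∞ (fun s : ℝ × ℝ × E N => d.H s.2.1 s.2.2) :=
      hH.comp contDiff_snd
    have h2 : ContDiff ℝ ∞ (fun s : ℝ × ℝ × E N => z0 + s.1 • d.H s.2.1 s.2.2) :=
      contDiff_const.add (contDiff_fst.smul h1)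
    have h3 : ContDiff ℝ ∞ (fun s : ℝ × ℝ × E N => z0 + s.1 • s.2.2) :=
      contDiff_const.add (contDiff_fst.smul (contDiff_snd.comp contDiff_snd))
    exact (hψt.comp h2).sub (hψt.comp h3)
  have hG1 : ∀ t y, G (0, t, y) = 0 := by
    intro t y
    simp [G]
  have hG2 : ∀ s y, G (s, 0, y) = 0 := by
    intro s y
    simp [G, hH0]
  have hGq : ∀ s t y, 1 ≤ d.q y → G (s, t, y) = 0 := by
    intro s t y h
    simp [G, hH1 t y h]
  have hqc : ∀ y, d.q y ≤ 1 → ‖y‖ ≤ cq := by
    intro y hy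
    have h1 := (hq y).1
    have h2 : ‖y‖ ^ 2 ≤ cq ^ 2 := by nlinarith
    exact le_of_sq_le_sq h2 (by linarith)
  -- the bounds of the partial derivatives of `G`
  have hGb : ∃ CG, 1 ≤ CG ∧ ∀ k ≤ r, ∀ (ρ t : ℝ) (y : E N), |ρ| ≤ 1 → |t| ≤ 1 →
      ‖iteratedFDeriv ℝ k (fun y => G (ρ, t, y)) y‖ ≤ CG * |t| * |ρ| := by
    refine unif (fun k C => ∀ (ρ t : ℝ) (y : E N), |ρ| ≤ 1 → |t| ≤ 1 →
      ‖iteratedFDeriv ℝ k (fun y => G (ρ, t, y)) y‖ ≤ C * |t| * |ρ|) ?_ ?_ r
    · intro k C C' h h' ρ t y h1 h2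
      refine (h' ρ t y h1 h2).trans ?_
      gcongr
    · intro k
      have hK : IsCompact ((Metric.closedBall (0 : ℝ) 1) ×ˢ
          ((Metric.closedBall (0 : ℝ) 1) ×ˢ (Metric.closedBall (0 : E N) cq))) :=
        (isCompact_closedBall _ _).prod ((isCompact_closedBall _ _).prod
          (isCompact_closedBall _ _))
      obtain ⟨S, hS⟩ := hK.exists_bound_of_continuousOn
        (hG.continuous_iteratedFDeriv (m := k + 2) (le_inf (k + 2))).continuousOn
      refine ⟨max S 0, fun ρ t y h1 h2 => ?_⟩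
      by_cases hy : ‖y‖ ≤ cq
      · refine hadamard G hG hG1 hG2 k (max S 0) ρ t y (le_max_right _ _) ?_
        intro ρ' t' h3 h4
        refine (hS (ρ', t', y) ?_).trans (le_max_left _ _)
        refine ⟨?_, ?_, ?_⟩
        · simpa using h3.trans h1
        · simpa using h4.trans h2
        · simpa using hy
      · have h3 : (fun y => G (ρ, t, y)) =ᶠ[𝓝 y] fun _ => (0 : E K) := by
          have ho : {y : E N | cq < ‖y‖} ∈ 𝓝 y :=
            (isOpen_lt continuous_const continuous_norm).mem_nhds (not_le.1 hy)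
          filter_upwards [ho] with z hz
          refine hGq _ _ _ ?_
          by_contra hc
          exact absurd (hqc z (not_le.1 hc).le) (not_le.2 hz)
        have h4 := (h3.iteratedFDeriv ℝ k).eq_of_nhds
        rw [h4, iteratedFDeriv_fun_zero]
        simp only [Pi.zero_apply, norm_zero]
        positivity
  obtain ⟨CG, hCG1, hCG⟩ := hGb
  obtain ⟨D, hD1, hD⟩ := cs_bound φt hφt hφs r
  obtain ⟨B, hB1, hB⟩ := cs_bound (fun x => b1 x) b1.contDiff b1.hasCompactSupport r
  refine ⟨2 ^ r * B * (r.factorial * CG * D ^ r), min 1 (r1 / cq), ?_, ?_, min_le_left _ _, ?_⟩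
  · have h1 : (1 : ℝ) ≤ 2 ^ r := one_le_pow₀ (by norm_num)
    have h2 : (1 : ℝ) ≤ r.factorial := by
      have := Nat.factorial_pos r
      exact_mod_cast this
    have h3 : (1 : ℝ) ≤ D ^ r := one_le_pow₀ hD1
    have h4 : (1 : ℝ) ≤ 2 ^ r * B := one_le_mul_of_one_le_of_one_le h1 hB1
    have h5 : (1 : ℝ) ≤ r.factorial * CG := one_le_mul_of_one_le_of_one_le h2 hCG1
    have h6 : (1 : ℝ) ≤ r.factorial * CG * D ^ r := one_le_mul_of_one_le_of_one_le h5 h3
    exact one_le_mul_of_one_le_of_one_le h4 h6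
  · have : 0 < cq := by linarith
    exact lt_min one_pos (by positivity)
  intro ρ t hρ hρ0 ht
  have hcq0 : 0 < cq := by linarith
  have hρ1 : ρ ≤ 1 := hρ0.trans (min_le_left _ _)
  have hρr : ρ * cq ≤ r1 := by
    have := hρ0.trans (min_le_right _ _)
    rwa [le_div_iff₀ hcq0] at this
  have hball : ∀ y, d.q y ≤ 1 → z0 + ρ • y ∈ Metric.closedBall z0 r1 := by
    intro y hy
    rw [Metric.mem_closedBall, dist_eq_norm, add_sub_cancel_left, norm_smul,
      Real.norm_of_nonneg hρ.le]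
    exact (mul_le_mul_of_nonneg_left (hqc y hy) hρ.le).trans hρr
  refine ⟨fun y hy => (hVa _ (hball y hy)).1, ?_⟩
  let f : E K → E N := fun x => ρ⁻¹ • φt x
  have hf : ContDiff ℝ ∞ f := hφt.const_smul ρ⁻¹
  let g : E N → E K := fun y => G (ρ, t, y)
  have hg : ContDiff ℝ ∞ g := hG.comp (contDiff_const.prodMk (contDiff_const.prodMk contDiff_id))
  let w : E K → E K := fun x => b1 x • (g ∘ f) x
  refine ⟨w, b1.contDiff.smul (hg.comp hf), ?_, ?_⟩
  · intro x hx
    by_cases hxW : x ∈ c.W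
    · have hxV := c.mapsφ x ⟨hx, hxW⟩
      have hxr := c.right x ⟨hx, hxW⟩
      have hM1 : hM c d z0 ρ t x = c.ψ (d.loc z0 ρ t (c.φ x)) := by
        unfold hM
        rw [if_pos hxW]
      set y : E N := ρ⁻¹ • (c.φ x - z0) with hy
      have hzy : z0 + ρ • y = c.φ x := by
        rw [hy, smul_smul, mul_inv_cancel₀ hρ.ne', one_smul]
        abel
      have hloc : d.loc z0 ρ t (c.φ x) = z0 + ρ • d.H t y := rfl
      rw [hM1, hloc]
      by_cases hqy : d.q y ≤ 1
      · have hb := hball y hqy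
        have hb' := hball (d.H t y) (by rw [hqH]; exact hqy)
        rw [hzy] at hb
        have hxa : x ∈ Metric.closedBall x0 a := by
          have := (hVa _ hb).2
          rwa [hxr] at this
        have hx2a : x ∈ Metric.closedBall x0 (2 * a) :=
          Metric.closedBall_subset_closedBall (by linarith) hxa
        have hb1x : b1 x = 1 := b1.one_of_mem_closedBall hxa
        have hfx : f x = y := by
          change ρ⁻¹ • φt x = y
          rw [hφt1 x hx2a]
        change _ = x + b1 x • g (f x)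
        rw [hb1x, one_smul, hfx]
        change _ = x + (ψt (z0 + ρ • d.H t y) - ψt (z0 + ρ • y))
        rw [hψt1 _ hb', hzy, hψt1 _ hb, hxr]
        abel
      · have hH1' := hH1 t y (not_le.1 hqy).le
        rw [hH1', hzy, hxr]
        change _ = x + b1 x • g (f x)
        by_cases hb : b1 x = 0
        · rw [hb]
          simp
        · have hx2a : x ∈ Metric.closedBall x0 (2 * a) := by
            have h1 : x ∈ Function.support b1 := hb
            rw [b1.support_eq] at h1
            exact Metric.ball_subset_closedBall h1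
          have hfx : f x = y := by
            change ρ⁻¹ • φt x = y
            rw [hφt1 x hx2a]
          rw [hfx]
          have : g y = 0 := hGq ρ t y (not_le.1 hqy).le
          rw [this]
          simp
    · have hM1 : hM c d z0 ρ t x = x := by
        unfold hM
        rw [if_neg hxW]
      have hb : b1 x = 0 := by
        by_contra hb
        have h1 : x ∈ Function.support b1 := hb
        rw [b1.support_eq] at h1
        exact hxW (hb1W (Metric.ball_subset_closedBall h1))
      rw [hM1]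
      change _ = x + b1 x • g (f x)
      rw [hb]
      simp
  · intro k hk x
    have hρi : 1 ≤ ρ⁻¹ := (one_le_inv₀ hρ).2 hρ1
    have hD' : 1 ≤ ρ⁻¹ * D := one_le_mul_of_one_le_of_one_le hρi hD1
    have hcomp : ∀ j ≤ k, ‖iteratedFDeriv ℝ j (g ∘ f) x‖
        ≤ r.factorial * (CG * |t| * ρ) * (D ^ r * (ρ⁻¹) ^ k) := by
      intro j hj
      have h1 : ‖iteratedFDeriv ℝ j (g ∘ f) x‖
          ≤ j.factorial * (CG * |t| * ρ) * (ρ⁻¹ * D) ^ j := by
        refine norm_iteratedFDeriv_comp_le hg hf (n := j) (by exact_mod_cast le_top) x ?_ ?_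
        · intro i hi
          have := hCG i (hi.trans (hj.trans hk)) ρ t (f x) (by rwa [abs_of_pos hρ]) ht
          rwa [abs_of_pos hρ] at this
        · intro i hi1 hi
          have h2 : iteratedFDeriv ℝ i f x = ρ⁻¹ • iteratedFDeriv ℝ i φt x := by
            have h3 : f = ρ⁻¹ • φt := rfl
            rw [h3]
            exact iteratedFDeriv_const_smul_apply
              ((hφt.of_le (by exact_mod_cast le_top)).contDiffAt)
          rw [h2, norm_smul, Real.norm_of_nonneg (by positivity)]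
          calc ρ⁻¹ * ‖iteratedFDeriv ℝ i φt x‖ ≤ ρ⁻¹ * D :=
                mul_le_mul_of_nonneg_left (hD i (hi.trans (hj.trans hk)) x) (by positivity)
            _ ≤ (ρ⁻¹ * D) ^ i := le_self_pow₀ hD' (by omega)
      refine h1.trans ?_
      have h4 : (j.factorial : ℝ) ≤ r.factorial := by
        exact_mod_cast Nat.factorial_le (hj.trans hk)
      have h5 : (ρ⁻¹ * D) ^ j ≤ D ^ r * (ρ⁻¹) ^ k := by
        rw [mul_pow, mul_comm]
        exact mul_le_mul (pow_le_pow_right₀ hD1 (hj.trans hk)) (pow_le_pow_right₀ hρi hj)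
          (by positivity) (by positivity)
      have h6 : 0 ≤ CG * |t| * ρ := by positivity
      exact mul_le_mul (mul_le_mul_of_nonneg_right h4 h6) h5 (by positivity) (by positivity)
    have hL := norm_iteratedFDeriv_smul_le (f := fun x => b1 x) (g := g ∘ f)
      (b1.contDiff (n := ⊤)) (hg.comp hf) x (n := k) (by exact_mod_cast le_top)
    change ‖iteratedFDeriv ℝ k (fun x => b1 x • (g ∘ f) x) x‖ ≤ _
    refine hL.trans ?_
    have hA0 : 0 ≤ (r.factorial : ℝ) * (CG * |t| * ρ) * (D ^ r * (ρ⁻¹) ^ k) := by positivity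
    calc ∑ i ∈ Finset.range (k + 1), (k.choose i : ℝ) * ‖iteratedFDeriv ℝ i (fun x => b1 x) x‖ *
          ‖iteratedFDeriv ℝ (k - i) (g ∘ f) x‖
        ≤ ∑ i ∈ Finset.range (k + 1), (k.choose i : ℝ) * B *
          (r.factorial * (CG * |t| * ρ) * (D ^ r * (ρ⁻¹) ^ k)) := by
          refine Finset.sum_le_sum fun i hi => ?_
          have hi' : i ≤ k := by
            have := Finset.mem_range.1 hi
            omega
          refine mul_le_mul ?_ (hcomp (k - i) (Nat.sub_le _ _)) (norm_nonneg _) (by positivity)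
          exact mul_le_mul_of_nonneg_left (hB i (hi'.trans hk) x) (by positivity)
      _ = (2 : ℝ) ^ k * B * (r.factorial * (CG * |t| * ρ) * (D ^ r * (ρ⁻¹) ^ k)) := by
          rw [← Finset.sum_mul, ← Finset.sum_mul]
          congr 2
          have := Nat.sum_range_choose k
          exact_mod_cast this
      _ ≤ (2 : ℝ) ^ r * B * (r.factorial * (CG * |t| * ρ) * (D ^ r * (ρ⁻¹) ^ k)) := by
          have h7 : (2 : ℝ) ^ k ≤ 2 ^ r := pow_le_pow_right₀ (by norm_num) hk
          gcongr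
      _ = 2 ^ r * B * (r.factorial * CG * D ^ r) * |t| * ρ * (ρ⁻¹) ^ k := by ring

end Pool.Agent.Helper62.RZ
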