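import Pool.Agent.Helper56.RZ.GoalsD
import Pool.Agent.Helper56.RZ.FinM
import Pool.Agent.Helper16.RZ.LP

/-!
# Project RZ3, packet RET (12265): near returns
-/

set_option autoImplicit false

open Set Filter Topology MeasureTheory

open scoped ContDiff

namespace Pool.Agent.Helper62.RZ

open Pool.Agent.Helper56.RZ

/-- a high power of the cocycle satisfies `Hyp8` -/
theorem hyp8_of (hDN : StmtDN) (hPW : StmtPW) (hLP : StmtLP) {K : ℕ} {M : Set (E K)}
    (hM : IsCompact M) {C : Coc M K} {P : Fin 3 → M → End K} {n : ℕ} (hL : Lin C)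
    (hspl : Spl C P) (hdom : Dom C P n) :
    ∃ (k0 : ℕ) (D : Coc M K), 1 ≤ k0 ∧ Hyp8 D (fun x => P 0 x + P 1 x) (P 2) ∧
      (∀ x, D.T x = C.T x) ∧ ∀ (j : ℕ) (x : M), D.f^[j] x = C.f^[j * k0] x := by
  have hcM : CompactSpace M := isCompact_iff_compactSpace.1 hM
  obtain ⟨q, Cq, hq0, hq1, hCq, hdn⟩ := hDN M K C P n hspl hdom
  obtain ⟨k1, hk1⟩ := exists_pow_lt_of_lt_one (show 0 < 1 / (16 * Cq) by positivity) hq1
  obtain ⟨k, hkpos, hk⟩ : ∃ k : ℕ, 1 ≤ k ∧ q ^ k ≤ 1 / (16 * Cq) :=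
    ⟨k1 + 1, by omega, (pow_le_pow_of_le_one hq0.le hq1.le (Nat.le_succ k1)).trans hk1.le⟩
  have hk' : Cq * q ^ k ≤ 1 / 16 := by
    have h1 := mul_le_mul_of_nonneg_left hk (show 0 ≤ Cq by linarith)
    have h2 : Cq * (1 / (16 * Cq)) = 1 / 16 := by field_simp
    linarith
  obtain ⟨D, hD, hDs, hDn⟩ := hPW M K C (k * n)
  have hsD := hDs _ hspl
  have hLD : Lin D := hLP K M hM C D (k * n) hD hL
  refine ⟨k * n, D, Nat.mul_pos hkpos hdom.1, ⟨hLD, hsD.pair1, fun x => ?_, fun x => ?_⟩,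
    hD.T, fun j x => (hDn j x).1⟩
  · have h1 := (hdn k (D.f x)).2.1
    rw [← hD.B] at h1
    linarith
  · have h0 := (hdn k x).2.2 0 2 (by decide)
    have h1 := (hdn k x).2.2 1 2 (by decide)
    rw [← hD.A, ← hD.f, ← hD.B] at h0 h1
    have p3 : ‖D.A x * (P 0 x + P 1 x)‖ ≤ ‖D.A x * P 0 x‖ + ‖D.A x * P 1 x‖ := by
      rw [mul_add]; exact norm_add_le _ _
    have p4 := mul_le_mul_of_nonneg_left p3 (norm_nonneg (D.B (D.f x) * P 2 (D.f x)))
    refine le_trans p4 ?_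
    rw [mul_add]
    linarith [mul_comm ‖D.A x * P 0 x‖ ‖D.B (D.f x) * P 2 (D.f x)‖,
      mul_comm ‖D.A x * P 1 x‖ ‖D.B (D.f x) * P 2 (D.f x)‖]

/-- the iterates do not contract much -/
theorem inv_lip {K : ℕ} {M : Set (E K)} (hM : IsCompact M) {C : Coc M K} (hL : Lin C) (k0 : ℕ) :
    ∃ L0 : ℝ, 1 ≤ L0 ∧ ∀ j < k0, ∀ x y : M,
      ‖(x : E K) - y‖ ≤ L0 * ‖(C.f^[j] x : E K) - C.f^[j] y‖ := by
  obtain ⟨L, hL0, h1⟩ :=
    (Pool.Agent.Helper16.RZ.ud_one hM C.inv (Pool.Agent.Helper16.RZ.lin_inv C hL)).flip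
  have h2 : ∀ x y : M, ‖(x : E K) - y‖ ≤ (L + 1) * ‖(C.f x : E K) - C.f y‖ := by
    intro x y
    have h3 := h1 (C.f x) (C.f y)
    change ‖(C.f.symm (C.f x) : E K) - C.f.symm (C.f y)‖ ≤ _ at h3
    rw [Homeomorph.symm_apply_apply, Homeomorph.symm_apply_apply] at h3
    have h4 := norm_nonneg ((C.f x : E K) - C.f y)
    linarith
  have h3 : ∀ (j : ℕ) (x y : M), ‖(x : E K) - y‖ ≤
      (L + 1) ^ j * ‖(C.f^[j] x : E K) - C.f^[j] y‖ := by
    intro j
    induction j with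
    | zero => intro x y; simp
    | succ j ih =>
      intro x y
      rw [Function.iterate_succ_apply', Function.iterate_succ_apply', pow_succ, mul_assoc]
      exact (ih x y).trans (mul_le_mul_of_nonneg_left (h2 _ _) (by positivity))
  refine ⟨(L + 1) ^ k0, one_le_pow₀ (by linarith), fun j hj x y => (h3 j x y).trans ?_⟩
  exact mul_le_mul_of_nonneg_right (pow_le_pow_right₀ (by linarith) hj.le) (norm_nonneg _)

/-- the estimate on one disc -/
theorem slice (hRA : StmtRA) (hRE : StmtRE) {K u : ℕ} {M : Set (E K)} (hM : IsCompact M)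
    {C D : Coc M K} {S U : M → End K} (h8 : Hyp8 D S U) {k0 : ℕ} (hk0 : 1 ≤ k0)
    (hDC : ∀ (j : ℕ) (x : M), D.f^[j] x = C.f^[j * k0] x) {L0 : ℝ} (hL0 : 1 ≤ L0)
    (hlip : ∀ j < k0, ∀ x y : M, ‖(x : E K) - y‖ ≤ L0 * ‖(C.f^[j] x : E K) - C.f^[j] y‖)
    (r lam ε : ℝ) (hr : 0 < r) (hlam : 0 < lam) (hε : 0 < ε) :
    ∃ (q0 : ℕ) (Cc : ℝ), 0 ≤ Cc ∧ ∀ (g : E u → M) (g' : E u → (E u →L[ℝ] E K)),
      Disc D.T S U r lam g g' → ∀ n : ℕ, k0 * q0 ≤ n → ∀ ρ : ℝ, 0 < ρ →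
      volume {a : E u | ‖a‖ ≤ r / 2 ∧ ‖(C.f^[n] (g a) : E K) - g a‖ ≤ ρ} ≤
        ENNReal.ofReal (Cc * Real.exp (ε * n) * ρ ^ u) := by
  have hcM : CompactSpace M := isCompact_iff_compactSpace.1 hM
  obtain ⟨δ, hδ, hA⟩ := hRA K M hM D S U h8
  obtain ⟨Ce, hCe, hE⟩ := hRE K u M hM D S U h8 r lam ε δ hr hlam hε hδ
  obtain ⟨R, hR1, hR⟩ := exists_bd U h8.pair.contG
  obtain ⟨q0, hq0⟩ := exists_pow_lt_of_lt_one (show 0 < 1 / (12 * L0 * R) by positivity)
    (show (1 / 4 : ℝ) < 1 by norm_num)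
  refine ⟨q0, Ce * (4 * L0) ^ u, by positivity, fun g g' hg n hn ρ hρ => ?_⟩
  set q := n / k0 with hq
  have hqq : q0 ≤ q := (Nat.le_div_iff_mul_le (by omega)).2 (by rw [mul_comm]; exact hn)
  have hmod : n % k0 < k0 := Nat.mod_lt _ (by omega)
  have hit : ∀ x : M, C.f^[n] x = C.f^[n % k0] (D.f^[q] x) := by
    intro x
    rw [hDC, ← Function.iterate_add_apply, mul_comm q k0, Nat.mod_add_div]
  have hqn : (q : ℝ) ≤ n := by exact_mod_cast Nat.div_le_self n k0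
  have hsmall : 12 * L0 * R * (1 / 4) ^ q ≤ 1 := by
    have h1 : (1 / 4 : ℝ) ^ q ≤ (1 / 4) ^ q0 := pow_le_pow_of_le_one (by norm_num) (by norm_num) hqq
    have h2 : (1 / 4 : ℝ) ^ q ≤ 1 / (12 * L0 * R) := h1.trans hq0.le
    have h3 := mul_le_mul_of_nonneg_left h2 (show 0 ≤ 12 * L0 * R by positivity)
    rwa [mul_one_div_cancel (by positivity)] at h3
  set A : Set (E u) := {a : E u | ‖a‖ ≤ r / 2 ∧ ‖(C.f^[n] (g a) : E K) - g a‖ ≤ ρ} with hAdef
  have hcont : ContinuousOn g (Metric.closedBall 0 (r / 2)) := by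
    rw [Topology.IsInducing.subtypeVal.continuousOn_iff]
    intro a ha
    rw [mem_closedBall_zero_iff] at ha
    exact (hg.der a (by linarith)).continuousAt.continuousWithinAt
  have hmeas : MeasurableSet A := by
    have h1 : ContinuousOn (fun a => ‖(C.f^[n] (g a) : E K) - g a‖)
        (Metric.closedBall 0 (r / 2)) := by
      have h2 : ContinuousOn (fun a => C.f^[n] (g a)) (Metric.closedBall 0 (r / 2)) :=
        (C.f.continuous.iterate n).comp_continuousOn hcont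
      exact ((continuous_subtype_val.comp_continuousOn h2).sub
        (continuous_subtype_val.comp_continuousOn hcont)).norm
    have h3 := h1.preimage_isClosed_of_isClosed Metric.isClosed_closedBall
      (isClosed_Iic (a := ρ))
    have h4 : A = Metric.closedBall 0 (r / 2) ∩
        (fun a => ‖(C.f^[n] (g a) : E K) - g a‖) ⁻¹' Iic ρ := by
      ext a
      simp [hAdef]
    rw [h4]
    exact h3.measurableSet
  have key := hE g g' hg q (4 * L0 * ρ) A (by positivity) hmeas (fun a ha => ha.1)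
    (fun a ha a' ha' hB => ?_)
  · refine key.trans (ENNReal.ofReal_le_ofReal ?_)
    rw [mul_pow (4 * L0) ρ u]
    have h1 : Real.exp (ε * q) ≤ Real.exp (ε * n) :=
      Real.exp_le_exp.2 (mul_le_mul_of_nonneg_left hqn hε.le)
    calc Ce * Real.exp (ε * q) * ((4 * L0) ^ u * ρ ^ u)
        = (Ce * ((4 * L0) ^ u * ρ ^ u)) * Real.exp (ε * q) := by ring
      _ ≤ (Ce * ((4 * L0) ^ u * ρ ^ u)) * Real.exp (ε * n) :=
          mul_le_mul_of_nonneg_left h1 (by positivity)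
      _ = Ce * (4 * L0) ^ u * Real.exp (ε * n) * ρ ^ u := by ring
  · have har : ‖a‖ < r := by have := ha.1; linarith
    have har' : ‖a'‖ < r := by have := ha'.1; linarith
    have e1 := hA q (g a) (g a) (g a') (fun j hj => by
      refine ⟨by simpa using hδ.le, ?_⟩
      rw [norm_sub_rev]
      exact hB j hj) (hg.cone a a' har har') 0 (Nat.zero_le q)
    rw [Function.iterate_zero, id, id, Nat.sub_zero] at e1
    set X := ‖(D.f^[q] (g a) : E K) - D.f^[q] (g a')‖ with hX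
    have e2 : ‖U (D.f^[q] (g a)) ((D.f^[q] (g a') : E K) - D.f^[q] (g a))‖ ≤ R * X := by
      refine ((U _).le_opNorm _).trans ?_
      rw [hX, norm_sub_rev]
      exact mul_le_mul_of_nonneg_right (hR _) (norm_nonneg _)
    have e3 : ‖(g a' : E K) - g a‖ ≤ 6 * (1 / 4) ^ q * (R * X) :=
      e1.trans (mul_le_mul_of_nonneg_left e2 (by positivity))
    have e4 := hlip (n % k0) hmod (D.f^[q] (g a)) (D.f^[q] (g a'))
    rw [← hit, ← hit, ← hX] at e4
    have e5 : ‖(C.f^[n] (g a) : E K) - C.f^[n] (g a')‖ ≤ ρ + ‖(g a' : E K) - g a‖ + ρ := by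
      have : (C.f^[n] (g a) : E K) - C.f^[n] (g a') = ((C.f^[n] (g a) : E K) - g a)
          - ((g a' : E K) - g a) - ((C.f^[n] (g a') : E K) - g a') := by abel
      rw [this]
      refine (norm_sub_le _ _).trans (add_le_add ((norm_sub_le _ _).trans
        (add_le_add ha.2 le_rfl)) ha'.2)
    have hX0 : 0 ≤ X := norm_nonneg _
    have e6 : X ≤ L0 * (ρ + 6 * (1 / 4) ^ q * (R * X) + ρ) :=
      e4.trans (mul_le_mul_of_nonneg_left (e5.trans (by linarith)) (by linarith))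
    have e7 : L0 * (6 * (1 / 4) ^ q * (R * X)) ≤ X / 2 := by
      have : L0 * (6 * (1 / 4) ^ q * (R * X)) = (12 * L0 * R * (1 / 4) ^ q) * (X / 2) := by ring
      rw [this]
      nlinarith
    have e8 : L0 * (ρ + 6 * (1 / 4) ^ q * (R * X) + ρ)
        = 2 * L0 * ρ + L0 * (6 * (1 / 4) ^ q * (R * X)) := by ring
    rw [e8] at e6
    linarith

theorem exists_pos_le {s : Finset ℕ} {F : ℕ → ℝ} (h : ∀ j ∈ s, 0 < F j) :
    ∃ c : ℝ, 0 < c ∧ ∀ j ∈ s, c ≤ F j := by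
  induction s using Finset.induction_on with
  | empty => exact ⟨1, one_pos, by simp⟩
  | insert a s ha ih =>
    obtain ⟨c, hc, hc'⟩ := ih fun j hj => h j (Finset.mem_insert_of_mem hj)
    refine ⟨min c (F a), lt_min hc (h a (Finset.mem_insert_self _ _)), fun j hj => ?_⟩
    rcases Finset.mem_insert.1 hj with rfl | hj
    · exact min_le_right _ _
    · exact (min_le_left _ _).trans (hc' j hj)

/-- away from the periodic points short returns are not close -/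
theorem short {K : ℕ} {M : Set (E K)} {f : E K → E K} (hmaps : MapsTo f M M)
    (hf : ContinuousOn f M) {x0 : E K} (hx0 : x0 ∈ M) (hper : ∀ j : ℕ, 1 ≤ j → f^[j] x0 ≠ x0)
    (J : ℕ) : ∃ (U : Set (E K)) (c : ℝ), IsOpen U ∧ x0 ∈ U ∧ 0 < c ∧ ∀ x ∈ M ∩ U, ∀ j, 1 ≤ j →
      j < J → c < ‖f^[j] x - x‖ := by
  have hcont : ∀ j : ℕ, ContinuousOn f^[j] M := by
    intro j
    induction j with
    | zero => exact continuousOn_id
    | succ j ih =>
      rw [Function.iterate_succ]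
      exact ih.comp hf hmaps
  obtain ⟨c, hc, hc'⟩ := exists_pos_le (s := Finset.Ico 1 J) (F := fun j => ‖f^[j] x0 - x0‖ / 2)
    (fun j hj => by
      have := hper j (Finset.mem_Ico.1 hj).1
      have h2 : 0 < ‖f^[j] x0 - x0‖ := norm_pos_iff.2 (sub_ne_zero.2 this)
      positivity)
  have hev : ∀ᶠ x in 𝓝[M] x0, ∀ j ∈ Finset.Ico 1 J, c < ‖f^[j] x - x‖ := by
    rw [Filter.eventually_all_finset]
    intro j hj
    have h1 : ContinuousWithinAt (fun x => ‖f^[j] x - x‖) M x0 :=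
      ((hcont j x0 hx0).sub continuousWithinAt_id).norm
    have h2 : c < ‖f^[j] x0 - x0‖ := by
      have h3 : c ≤ ‖f^[j] x0 - x0‖ / 2 := hc' j hj
      have h4 : 0 < ‖f^[j] x0 - x0‖ :=
        norm_pos_iff.2 (sub_ne_zero.2 (hper j (Finset.mem_Ico.1 hj).1))
      linarith
    exact h1.eventually (lt_mem_nhds h2)
  obtain ⟨U, hU, hxU, hUM⟩ := mem_nhdsWithin.1 hev
  refine ⟨U, c, hU, hxU, hc, fun x hx j h1 h2 => ?_⟩
  exact hUM ⟨hx.2, hx.1⟩ j (Finset.mem_Ico.2 ⟨h1, h2⟩)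

/-- the points of a box in linear coordinates with a near return -/
def ZZ {K N u w : ℕ} (Ξ : (E u × E w) ≃L[ℝ] E N) (z0 : E N) (ψ : E N → E K) (F : E K → E K)
    (s ρ : ℝ) : Set (E N) :=
  {z | ‖(Ξ.symm (z - z0)).1‖ ≤ s ∧ ‖(Ξ.symm (z - z0)).2‖ ≤ s ∧ ‖F (ψ z) - ψ z‖ ≤ ρ}

theorem ZZ_slice {K N u w : ℕ} (Ξ : (E u × E w) ≃L[ℝ] E N) (z0 : E N) (ψ : E N → E K)
    (F : E K → E K) (s ρ : ℝ) (a : E u) (b : E w) :
    z0 + Ξ (a, b) ∈ ZZ Ξ z0 ψ F s ρ ↔
      ‖a‖ ≤ s ∧ ‖b‖ ≤ s ∧ ‖F (ψ (z0 + Ξ (a, b))) - ψ (z0 + Ξ (a, b))‖ ≤ ρ := by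
  unfold ZZ
  rw [mem_ofPred_eq, add_sub_cancel_left, ContinuousLinearEquiv.symm_apply_apply]

/-- PACKET RET -/
theorem ret (hT4 : StmtT4) (hT5 : StmtT5) (hLN : StmtLN) (hLZ : StmtLZ) (hLP : StmtLP)
    (hPW : StmtPW) (hDN : StmtDN) (hRA : StmtRA) (hRE : StmtRE) (hDF : StmtDF)
    (hFB : StmtFB) : StmtRET := by
  intro N K u M m f f' P hSV hf hPH x0 hx0 hper hrank l hl0 hl1
  have hM := hSV.compact
  have hcM : CompactSpace M := isCompact_iff_compactSpace.1 hM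
  have hf1 : IsDiffeo 1 M f f' := hf.of_le' (by norm_num)
  have hfc : ContinuousOn f M := hf.smooth.continuousOn
  have hPi : ContinuousOn (Pi M) M :=
    (((hPH.cont 0).add (hPH.cont 1)).add (hPH.cont 2)).congr fun x hx => (hPH.sum x hx).symm
  obtain ⟨C, hC⟩ := hT4 K M f f' hPi hf1
  obtain ⟨-, -, -, hto, -⟩ := hT5 K M f f' C hf1 hC
  obtain ⟨hspl, n0, hdom⟩ := hto P hPH
  have hL : Lin C := lin_of hLN hLZ hSV hf hC
  obtain ⟨k0, D, hk0, h8, hDT, hDC⟩ := hyp8_of hDN hPW hLP hM hL hspl hdom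
  obtain ⟨L0, hL0, hlip⟩ := inv_lip hM hL k0
  obtain ⟨c, hxW, hcm⟩ := hSV.chart x0 hx0
  have hz0 : c.φ x0 ∈ c.V := c.mapsφ x0 ⟨hx0, hxW⟩
  have hψ : c.ψ (c.φ x0) = x0 := c.right x0 ⟨hx0, hxW⟩
  obtain ⟨w, Ξ, r, lam, hr, hlam, hV, hdisc⟩ := hDF N K u M m f f' P hSV hf1 hPH c (c.φ x0) hz0
    (by rw [hψ]; exact hrank)
  set z0 := c.φ x0 with hz0def
  -- the exponent
  obtain ⟨ε, hε, hlε⟩ : ∃ ε : ℝ, 0 < ε ∧ l * Real.exp ε < 1 := by
    refine ⟨-Real.log l / 2, by have := Real.log_neg hl0 hl1; linarith, ?_⟩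
    have h1 : l = Real.exp (Real.log l) := (Real.exp_log hl0).symm
    calc l * Real.exp (-Real.log l / 2) = Real.exp (Real.log l) * Real.exp (-Real.log l / 2) := by
          rw [← h1]
      _ = Real.exp (Real.log l / 2) := by rw [← Real.exp_add]; congr 1; ring
      _ < 1 := by
          rw [Real.exp_lt_one_iff]
          have := Real.log_neg hl0 hl1
          linarith
  obtain ⟨q0, Cc, hCc, hsl⟩ := slice hRA hRE hM h8 hk0 hDC hL0 hlip r lam ε hr hlam hε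
  obtain ⟨CF, hCF, hF⟩ := hFB N u w Ξ
  obtain ⟨U', c0, hU'o, hxU', hc0, hU'⟩ := short hf.maps hfc hx0 hper (k0 * q0)
  have hDT' : D.T = fun x : M => Pi M x := by
    funext x
    rw [hDT, hC.rT]
  -- the neighbourhood
  set O : Set (E N) := {z | ‖(Ξ.symm (z - z0)).1‖ < r / 2 ∧ ‖(Ξ.symm (z - z0)).2‖ < r / 2} with hO
  have hcΞ : Continuous fun z : E N => Ξ.symm (z - z0) :=
    Ξ.symm.continuous.comp (continuous_id.sub continuous_const)
  have hOo : IsOpen O := by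
    have h1 : IsOpen {z : E N | ‖(Ξ.symm (z - z0)).1‖ < r / 2} :=
      isOpen_lt (continuous_fst.comp hcΞ).norm continuous_const
    have h2 : IsOpen {z : E N | ‖(Ξ.symm (z - z0)).2‖ < r / 2} :=
      isOpen_lt (continuous_snd.comp hcΞ).norm continuous_const
    exact h1.inter h2
  have hbox : ∀ z : E N, ‖(Ξ.symm (z - z0)).1‖ ≤ r / 2 → ‖(Ξ.symm (z - z0)).2‖ ≤ r / 2 →
      z ∈ c.V := by
    intro z h1 h2
    have h3 := hV (Ξ.symm (z - z0)).1 (Ξ.symm (z - z0)).2 (by linarith) (by linarith)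
    rw [Prod.mk.eta, ContinuousLinearEquiv.apply_symm_apply, add_sub_cancel] at h3
    exact h3
  have hWo : IsOpen (c.W ∩ c.φ ⁻¹' O) := c.smoothφ.continuousOn.isOpen_inter_preimage c.openW hOo
  have hfit : ∀ j : ℕ, ContinuousOn f^[j] M := by
    intro j
    induction j with
    | zero => exact continuousOn_id
    | succ j ih =>
      rw [Function.iterate_succ]
      exact ih.comp hfc hf.maps
  -- measure of the box set
  have hmeasZ : ∀ (j : ℕ) (ρ : ℝ), MeasurableSet (ZZ Ξ z0 c.ψ f^[j] (r / 2) ρ) := by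
    intro j ρ
    have h1 : IsClosed {z : E N | ‖(Ξ.symm (z - z0)).1‖ ≤ r / 2 ∧
        ‖(Ξ.symm (z - z0)).2‖ ≤ r / 2} := by
      have h1 : IsClosed {z : E N | ‖(Ξ.symm (z - z0)).1‖ ≤ r / 2} :=
        isClosed_le (continuous_fst.comp hcΞ).norm continuous_const
      have h2 : IsClosed {z : E N | ‖(Ξ.symm (z - z0)).2‖ ≤ r / 2} :=
        isClosed_le (continuous_snd.comp hcΞ).norm continuous_const
      exact h1.inter h2
    have hψc : ContinuousOn c.ψ {z : E N | ‖(Ξ.symm (z - z0)).1‖ ≤ r / 2 ∧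
        ‖(Ξ.symm (z - z0)).2‖ ≤ r / 2} :=
      c.smoothψ.continuousOn.mono fun z hz => hbox z hz.1 hz.2
    have h2 : ContinuousOn (fun z => ‖f^[j] (c.ψ z) - c.ψ z‖)
        {z : E N | ‖(Ξ.symm (z - z0)).1‖ ≤ r / 2 ∧ ‖(Ξ.symm (z - z0)).2‖ ≤ r / 2} :=
      (((hfit j).comp hψc fun z hz => (c.mapsψ z (hbox z hz.1 hz.2)).1).sub hψc).norm
    have h3 := h2.preimage_isClosed_of_isClosed h1 (isClosed_Iic (a := ρ))
    have h4 : ZZ Ξ z0 c.ψ f^[j] (r / 2) ρ = {z : E N | ‖(Ξ.symm (z - z0)).1‖ ≤ r / 2 ∧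
        ‖(Ξ.symm (z - z0)).2‖ ≤ r / 2} ∩ (fun z => ‖f^[j] (c.ψ z) - c.ψ z‖) ⁻¹' Iic ρ := by
      ext z
      simp [ZZ, and_assoc]
    rw [h4]
    exact h3.measurableSet
  have hvol : ∀ (j : ℕ) (ρ : ℝ), k0 * q0 ≤ j → 0 < ρ →
      volume (ZZ Ξ z0 c.ψ f^[j] (r / 2) ρ) ≤ ENNReal.ofReal CF *
        (ENNReal.ofReal (Cc * Real.exp (ε * j) * ρ ^ u) *
          volume (Metric.closedBall (0 : E w) (r / 2))) := by
    intro j ρ hj hρ
    rw [hF z0 _ (hmeasZ j ρ)]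
    refine mul_le_mul_right ?_ _
    have h1 : ∀ b : E w, volume {a : E u | z0 + Ξ (a, b) ∈ ZZ Ξ z0 c.ψ f^[j] (r / 2) ρ} ≤
        (Metric.closedBall (0 : E w) (r / 2)).indicator
          (fun _ => ENNReal.ofReal (Cc * Real.exp (ε * j) * ρ ^ u)) b := by
      intro b
      by_cases hb : b ∈ Metric.closedBall (0 : E w) (r / 2)
      · rw [indicator_of_mem hb]
        rw [mem_closedBall_zero_iff] at hb
        obtain ⟨g, g', hg, hgd⟩ := hdisc b (by linarith)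
        rw [← hDT'] at hgd
        refine le_trans (measure_mono fun a ha => ?_) (hsl g g' hgd j hj ρ hρ)
        rw [mem_ofPred_eq, ZZ_slice] at ha
        obtain ⟨ha1, ha2, ha3⟩ := ha
        refine ⟨ha1, ?_⟩
        rw [hC.iter, hg a (by linarith)]
        exact ha3
      · rw [indicator_of_notMem hb]
        rw [mem_closedBall_zero_iff] at hb
        have h2 : {a : E u | z0 + Ξ (a, b) ∈ ZZ Ξ z0 c.ψ f^[j] (r / 2) ρ} = ∅ := by
          ext a
          rw [mem_ofPred_eq, ZZ_slice]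
          simp only [mem_empty_iff_false, iff_false]
          exact fun h => hb h.2.1
        rw [h2, measure_empty]
    refine (lintegral_mono h1).trans ?_
    rw [lintegral_indicator_const Metric.isClosed_closedBall.measurableSet]
  -- the estimate for each `n`
  have hfin : ∀ A : Set (E K), m A ≠ ⊤ := fun A =>
    ne_top_of_le_ne_top hSV.finite (measure_mono (subset_univ A))
  set V0 := (volume (Metric.closedBall (0 : E w) (r / 2))).toReal with hV0
  have hV0n : 0 ≤ V0 := ENNReal.toReal_nonneg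
  set mM := (m univ).toReal with hmM
  have hmM0 : 0 ≤ mM := ENNReal.toReal_nonneg
  have hest : ∀ (n : ℕ) (ρ : ℝ), 0 < ρ →
      (m {x | x ∈ M ∩ ((c.W ∩ c.φ ⁻¹' O) ∩ U') ∧ ‖f^[n + 1] x - x‖ ≤ ρ}).toReal ≤
        (CF * Cc * V0 + mM / c0 ^ u) * Real.exp (ε * (n + 1 : ℕ)) * ρ ^ u := by
    intro n ρ hρ
    have hexp : 1 ≤ Real.exp (ε * (n + 1 : ℕ)) := Real.one_le_exp (by positivity)
    rcases Nat.lt_or_ge (n + 1) (k0 * q0) with hn | hn
    · -- short returns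
      rcases lt_or_ge ρ c0 with hρc | hρc
      · have hemp : {x | x ∈ M ∩ ((c.W ∩ c.φ ⁻¹' O) ∩ U') ∧ ‖f^[n + 1] x - x‖ ≤ ρ} = ∅ := by
          ext x
          simp only [mem_empty_iff_false, iff_false]
          rintro ⟨⟨hxM, -, hxU⟩, hx⟩
          have := hU' x ⟨hxM, hxU⟩ (n + 1) (by omega) hn
          linarith
        rw [hemp, measure_empty, ENNReal.toReal_zero]
        positivity
      · have h1 : (m {x | x ∈ M ∩ ((c.W ∩ c.φ ⁻¹' O) ∩ U') ∧ ‖f^[n + 1] x - x‖ ≤ ρ}).toReal ≤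
            mM := ENNReal.toReal_mono (hfin univ) (measure_mono (subset_univ _))
        have h2 : 1 ≤ (ρ / c0) ^ u := one_le_pow₀ ((one_le_div hc0).2 hρc)
        have h3 : mM ≤ mM / c0 ^ u * ρ ^ u := by
          have : mM / c0 ^ u * ρ ^ u = mM * (ρ / c0) ^ u := by rw [div_pow]; ring
          rw [this]
          exact le_mul_of_one_le_right hmM0 h2
        have h4 : 0 ≤ mM / c0 ^ u * ρ ^ u := by positivity
        have h5 : 0 ≤ CF * Cc * V0 * ρ ^ u := by positivity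
        calc _ ≤ mM := h1
          _ ≤ mM / c0 ^ u * ρ ^ u := h3
          _ ≤ (CF * Cc * V0 + mM / c0 ^ u) * ρ ^ u := by rw [add_mul]; linarith
          _ ≤ (CF * Cc * V0 + mM / c0 ^ u) * ρ ^ u * Real.exp (ε * (n + 1 : ℕ)) :=
              le_mul_of_one_le_right (by positivity) hexp
          _ = _ := by ring
    · -- long returns
      have hsub : {x | x ∈ M ∩ ((c.W ∩ c.φ ⁻¹' O) ∩ U') ∧ ‖f^[n + 1] x - x‖ ≤ ρ} ⊆
          c.ψ '' ZZ Ξ z0 c.ψ f^[n + 1] (r / 2) ρ := by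
        rintro x ⟨⟨hxM, ⟨hxW', hxO⟩, -⟩, hx⟩
        have hr1 := c.right x ⟨hxM, hxW'⟩
        refine ⟨c.φ x, ⟨hxO.1.le, hxO.2.le, ?_⟩, hr1⟩
        rw [hr1]
        exact hx
      have h1 : m {x | x ∈ M ∩ ((c.W ∩ c.φ ⁻¹' O) ∩ U') ∧ ‖f^[n + 1] x - x‖ ≤ ρ} ≤
          ENNReal.ofReal CF * (ENNReal.ofReal (Cc * Real.exp (ε * (n + 1 : ℕ)) * ρ ^ u) *
            volume (Metric.closedBall (0 : E w) (r / 2))) := by
        refine (measure_mono hsub).trans ?_
        rw [hcm _ (hmeasZ (n + 1) ρ) fun z hz => hbox z hz.1 hz.2.1]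
        exact hvol (n + 1) ρ hn hρ
      have htop : ENNReal.ofReal CF * (ENNReal.ofReal (Cc * Real.exp (ε * (n + 1 : ℕ)) * ρ ^ u) *
            volume (Metric.closedBall (0 : E w) (r / 2))) ≠ ⊤ :=
        ENNReal.mul_ne_top ENNReal.ofReal_ne_top (ENNReal.mul_ne_top ENNReal.ofReal_ne_top
          measure_closedBall_lt_top.ne)
      have h2 := ENNReal.toReal_mono htop h1
      rw [ENNReal.toReal_mul, ENNReal.toReal_mul, ENNReal.toReal_ofReal hCF,
        ENNReal.toReal_ofReal (by positivity), ← hV0] at h2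
      refine h2.trans ?_
      have h3 : 0 ≤ mM / c0 ^ u * Real.exp (ε * (n + 1 : ℕ)) * ρ ^ u := by positivity
      calc CF * (Cc * Real.exp (ε * (n + 1 : ℕ)) * ρ ^ u * V0)
          ≤ CF * (Cc * Real.exp (ε * (n + 1 : ℕ)) * ρ ^ u * V0) +
            mM / c0 ^ u * Real.exp (ε * (n + 1 : ℕ)) * ρ ^ u := by linarith
        _ = _ := by ring
  -- sum up
  set C1 := CF * Cc * V0 + mM / c0 ^ u with hC1
  have hC1n : 0 ≤ C1 := by positivity
  refine ⟨(c.W ∩ c.φ ⁻¹' O) ∩ U', C1 * Real.exp ε * (1 - l * Real.exp ε)⁻¹, hWo.inter hU'o,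
    ⟨⟨hxW, ?_⟩, hxU'⟩, fun ρ hρ N0 => ?_⟩
  · change c.φ x0 ∈ O
    have h0 : Ξ.symm (c.φ x0 - z0) = 0 := by rw [← hz0def, sub_self, map_zero]
    refine ⟨?_, ?_⟩
    · rw [h0]; simpa using by linarith
    · rw [h0]; simpa using by linarith
  · have hg : ∑ n ∈ Finset.range N0, (l * Real.exp ε) ^ n ≤ (1 - l * Real.exp ε)⁻¹ := by
      have h0 : 0 ≤ l * Real.exp ε := by positivity
      rw [← tsum_geometric_of_lt_one h0 hlε]
      exact (summable_geometric_of_lt_one h0 hlε).sum_le_tsum _ fun _ _ => by positivity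
    calc ∑ n ∈ Finset.range N0, l ^ n *
          (m {x | x ∈ M ∩ ((c.W ∩ c.φ ⁻¹' O) ∩ U') ∧ ‖f^[n + 1] x - x‖ ≤ ρ}).toReal
        ≤ ∑ n ∈ Finset.range N0, l ^ n * (C1 * Real.exp (ε * (n + 1 : ℕ)) * ρ ^ u) :=
          Finset.sum_le_sum fun n _ => mul_le_mul_of_nonneg_left (hest n ρ hρ) (by positivity)
      _ = C1 * Real.exp ε * ρ ^ u * ∑ n ∈ Finset.range N0, (l * Real.exp ε) ^ n := by
          rw [Finset.mul_sum]
          refine Finset.sum_congr rfl fun n _ => ?_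
          have : Real.exp (ε * (n + 1 : ℕ)) = Real.exp ε * Real.exp ε ^ n := by
            rw [← Real.exp_nat_mul, ← Real.exp_add]
            congr 1
            push_cast
            ring
          rw [this, mul_pow]
          ring
      _ ≤ C1 * Real.exp ε * ρ ^ u * (1 - l * Real.exp ε)⁻¹ :=
          mul_le_mul_of_nonneg_left hg (by positivity)
      _ = C1 * Real.exp ε * (1 - l * Real.exp ε)⁻¹ * ρ ^ u := by ring

end Pool.Agent.Helper62.RZ
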