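import Pool.Agent.Helper56.RZ.GoalsF
import Pool.Agent.Helper56.RZ.FinT

/-!
# Project RZ, packet NR5: the orbit of almost every point does not return in logarithmic time
-/

set_option autoImplicit false

open Set Filter Topology MeasureTheory

open scoped ContDiff

namespace Pool.Agent.Helper62.RZ

open Pool.Agent.Helper56.RZ

section nr5

variable {N K : ℕ} {M : Set (E K)} {m : Measure (E K)} {f f' : E K → E K}
  {P : Fin 3 → E K → End K}

theorem one_le_rk {A : End K} (hA : A ≠ 0) : 1 ≤ rk A := by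
  have h1 : 0 < Module.finrank ℝ (LinearMap.range (A : E K →ₗ[ℝ] E K)) := by
    rw [Module.finrank_pos_iff]
    rw [Submodule.nontrivial_iff_ne_bot]
    intro h
    apply hA
    rw [LinearMap.range_eq_bot] at h
    ext v i
    have := LinearMap.congr_fun h v
    simp only [ContinuousLinearMap.coe_coe, LinearMap.zero_apply] at this
    rw [this]
    rfl
  exact h1

/-- the return estimate, uniformly on `M` -/
theorem ret_unif (hRTA : StmtRTA) (hSV : SmoothVolume N K M m) (hf : IsDiffeo 2 M f f')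
    (hfm : Preserves M m f) (hPH : PH M f f' P) {ε : ℝ} (hε : 0 < ε) :
    ∃ (Cc ρ0 : ℝ) (n0 : ℕ), 0 ≤ Cc ∧ 0 < ρ0 ∧ ∀ n : ℕ, n0 ≤ n → ∀ ρ : ℝ, 0 < ρ → ρ ≤ ρ0 →
      (m {x | x ∈ M ∧ ‖f^[n] x - x‖ ≤ ρ}).toReal ≤ Cc * Real.exp (ε * n) * ρ := by
  classical
  have h0 : ∀ x : M, ∃ (U : Set (E K)) (Cc ρ0 : ℝ) (n0 : ℕ), IsOpen U ∧
      (x : E K) ∈ U ∧ 0 ≤ Cc ∧ 0 < ρ0 ∧ ∀ n : ℕ, n0 ≤ n → ∀ ρ : ℝ, 0 < ρ → ρ ≤ ρ0 →
      (m {x | x ∈ M ∩ U ∧ ‖f^[n] x - x‖ ≤ ρ}).toReal ≤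
        Cc * Real.exp (ε * n) * ρ ^ (rk (P 0 x) + rk (P 2 x)) :=
    fun x => hRTA N K M m f f' P hSV hf hfm hPH x x.2 ε hε
  choose U Cc ρ0 n0 hU hxU hCc hρ0 hest using h0
  obtain ⟨t, ht⟩ := hSV.compact.elim_finite_subcover U hU
    (fun x hx => mem_iUnion.2 ⟨⟨x, hx⟩, hxU ⟨x, hx⟩⟩)
  have hfin : ∀ A : Set (E K), m A ≠ ⊤ := fun A =>
    ne_top_of_le_ne_top hSV.finite (measure_mono (subset_univ A))
  have htne : t.Nonempty := by
    obtain ⟨x, hx⟩ := hSV.nonempty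
    obtain ⟨i, hi, -⟩ := mem_iUnion₂.1 (ht hx)
    exact ⟨i, hi⟩
  obtain ⟨ρm, hρm0, hρm⟩ : ∃ ρm : ℝ, 0 < ρm ∧ ∀ i ∈ t, ρm ≤ ρ0 i := by
    refine ⟨t.inf' htne ρ0, ?_, fun i hi => Finset.inf'_le _ hi⟩
    rw [Finset.lt_inf'_iff]
    exact fun i _ => hρ0 i
  refine ⟨∑ i ∈ t, Cc i, min ρm 1, t.sup n0, Finset.sum_nonneg fun i _ => hCc i,
    lt_min hρm0 one_pos, fun n hn ρ hρ hρ1 => ?_⟩
  have hsub : {x | x ∈ M ∧ ‖f^[n] x - x‖ ≤ ρ} ⊆
      ⋃ i ∈ t, {x | x ∈ M ∩ U i ∧ ‖f^[n] x - x‖ ≤ ρ} := by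
    rintro x ⟨hx, hx2⟩
    obtain ⟨i, hi, hxi⟩ := mem_iUnion₂.1 (ht hx)
    exact mem_iUnion₂.2 ⟨i, hi, ⟨hx, hxi⟩, hx2⟩
  have h1 : (m {x | x ∈ M ∧ ‖f^[n] x - x‖ ≤ ρ}).toReal ≤
      ∑ i ∈ t, (m {x | x ∈ M ∩ U i ∧ ‖f^[n] x - x‖ ≤ ρ}).toReal := by
    refine (ENNReal.toReal_mono (hfin _) (measure_mono hsub)).trans ?_
    exact measureReal_biUnion_finset_le t _
  refine h1.trans ?_
  rw [Finset.sum_mul, Finset.sum_mul]
  refine Finset.sum_le_sum fun i hi => ?_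
  refine (hest i n ((Finset.le_sup hi).trans hn) ρ hρ
    ((hρ1.trans (min_le_left _ _)).trans (hρm i hi))).trans ?_
  have h2 : 1 ≤ rk (P 0 i) + rk (P 2 i) :=
    (one_le_rk (hPH.ne i i.2 0)).trans (Nat.le_add_right _ _)
  have h3 : ρ ^ (rk (P 0 i) + rk (P 2 i)) ≤ ρ := by
    calc ρ ^ (rk (P 0 i) + rk (P 2 i)) ≤ ρ ^ 1 :=
          pow_le_pow_of_le_one hρ.le (hρ1.trans (min_le_right _ _)) h2
      _ = ρ := pow_one ρ
  have h4 : 0 ≤ Cc i * Real.exp (ε * n) := mul_nonneg (hCc i) (Real.exp_pos _).le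
  exact mul_le_mul_of_nonneg_left h3 h4

/-- the measure of the near returns does not depend on the starting time -/
theorem meas_shift (hMS : StmtMS) (hSV : SmoothVolume N K M m) (hf : IsDiffeo 1 M f f')
    (hfm : Preserves M m f) (n j : ℕ) (hj : j ≤ n) (ρ : ℝ) :
    m {x | x ∈ M ∧ ‖f^[n - j] x - f'^[j] x‖ ≤ ρ} = m {x | x ∈ M ∧ ‖f^[n] x - x‖ ≤ ρ} := by
  obtain ⟨hMSd, -⟩ := hMS N K M m hSV
  have hpres : ∀ k : ℕ, Preserves M m (f^[k]) := by
    intro k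
    induction k with
    | zero =>
      intro A hA
      rw [Function.iterate_zero, preimage_id]
      exact measure_inter_conull hSV.null
    | succ k ih =>
      rw [Function.iterate_succ]
      exact (hMSd _ _ (iter_diffeo hf k) ih).2 f f' hf hfm
  have hp' : Preserves M m (f'^[j]) := (hMSd _ _ (iter_diffeo hf j) (hpres j)).1
  have hcont : ContinuousOn (fun x => ‖f^[n] x - x‖) M :=
    ((iter_diffeo hf n).smooth.continuousOn.sub continuousOn_id).norm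
  have hclosed : IsClosed {x | x ∈ M ∧ ‖f^[n] x - x‖ ≤ ρ} := by
    have h1 := hcont.preimage_isClosed_of_isClosed hSV.compact.isClosed (isClosed_Iic (a := ρ))
    exact h1
  rw [← hp' _ hclosed.measurableSet]
  congr 1
  ext x
  simp only [mem_ofPred_eq, mem_inter_iff, mem_preimage]
  constructor
  · rintro ⟨hx, hx2⟩
    have h2 : f'^[j] x ∈ M := (iter_diffeo hf j).maps' hx
    refine ⟨⟨h2, ?_⟩, hx⟩
    have h3 : f^[n] (f'^[j] x) = f^[n - j] x := by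
      conv_lhs => rw [← Nat.sub_add_cancel hj, Function.iterate_add_apply,
        (iter_diffeo hf j).right x hx]
    rw [h3]
    exact hx2
  · rintro ⟨⟨h2, hx2⟩, hx⟩
    refine ⟨hx, ?_⟩
    have h3 : f^[n] (f'^[j] x) = f^[n - j] x := by
      conv_lhs => rw [← Nat.sub_add_cancel hj, Function.iterate_add_apply,
        (iter_diffeo hf j).right x hx]
    rw [h3] at hx2
    exact hx2

/-- summability -/
theorem summ_aux {ν : ℝ} (hν : 0 < ν) (C A : ℝ) (hC : 0 ≤ C) (hA : 0 ≤ A) :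
    Summable fun i : ℕ => (C * (i + 1) + 1) ^ 2 * (A * Real.exp (ν * (i + 1) / 4) *
      ((1 / 2 : ℝ) ^ i) ^ ν) := by
  obtain ⟨r, hr⟩ : ∃ r, r = Real.exp (ν / 4 - ν * Real.log 2) := ⟨_, rfl⟩
  have hr0 : 0 < r := by rw [hr]; exact Real.exp_pos _
  have hr1 : r < 1 := by
    rw [hr, Real.exp_lt_one_iff]
    have := Real.log_two_gt_d9
    nlinarith
  have h1 : Summable fun i : ℕ => (i : ℝ) ^ 2 * r ^ i :=
    summable_pow_mul_geometric_of_norm_lt_one 2 (by rw [Real.norm_of_nonneg hr0.le]; exact hr1)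
  have h2 := (summable_nat_add_iff 1).2 h1
  have h3 := h2.mul_left ((C + 1) ^ 2 * A * Real.exp (ν / 4) * r⁻¹)
  refine Summable.of_nonneg_of_le (fun i => by positivity) (fun i => ?_) h3
  have e1 : ((1 / 2 : ℝ) ^ i) ^ ν = Real.exp (-(ν * Real.log 2) * i) := by
    rw [← Real.rpow_natCast, ← Real.rpow_mul (by norm_num), Real.rpow_def_of_pos (by norm_num)]
    congr 1
    rw [one_div, Real.log_inv]
    ring
  have e2 : Real.exp (ν * (i + 1) / 4) * ((1 / 2 : ℝ) ^ i) ^ ν = Real.exp (ν / 4) * r ^ i := by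
    rw [e1, hr, ← Real.exp_nat_mul, ← Real.exp_add, ← Real.exp_add]
    congr 1
    ring
  have e3 : (C * (i + 1) + 1) ^ 2 * (A * Real.exp (ν * (i + 1) / 4) * ((1 / 2 : ℝ) ^ i) ^ ν) =
      (C * (i + 1) + 1) ^ 2 * (A * (Real.exp (ν / 4) * r ^ i)) := by
    rw [← e2]
    ring
  rw [e3]
  have e4 : C * (i + 1) + 1 ≤ (C + 1) * (i + 1 : ℝ) := by
    have : (0 : ℝ) ≤ i := by positivity
    nlinarith
  have e5 : (C * (i + 1) + 1) ^ 2 ≤ ((C + 1) * (i + 1 : ℝ)) ^ 2 := by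
    apply pow_le_pow_left₀ (by positivity) e4
  have e6 : (C + 1) ^ 2 * A * Real.exp (ν / 4) * r⁻¹ * (((i + 1 : ℕ) : ℝ) ^ 2 * r ^ (i + 1)) =
      ((C + 1) * (i + 1 : ℝ)) ^ 2 * (A * (Real.exp (ν / 4) * r ^ i)) := by
    have e7 : r⁻¹ * r ^ (i + 1) = r ^ i := by
      rw [pow_succ, mul_comm, mul_assoc, mul_inv_cancel₀ hr0.ne', mul_one]
    rw [← e7]
    push_cast
    ring
  rw [e6]
  exact mul_le_mul_of_nonneg_right e5 (by positivity)

/-- for a fixed pair of constants, almost every orbit stays away -/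
theorem ae_fix (hRTA : StmtRTA) (hMS : StmtMS) (hSV : SmoothVolume N K M m)
    (hf : IsDiffeo 2 M f f') (hfm : Preserves M m f) (hPH : PH M f f' P) (C k : ℕ)
    (hC : 1 ≤ C) (hk : 1 ≤ k) :
    ∃ n0 : ℕ, ∀ᵐ x ∂m, ∃ I0 : ℕ, ∀ i : ℕ, I0 ≤ i → ∀ n j : ℕ, n0 ≤ n → n ≤ C * (i + 1) → j ≤ n →
      x ∈ M → ((1 / 2 : ℝ) ^ i) ^ (1 / (k : ℝ)) < ‖f^[n - j] x - f'^[j] x‖ := by
  have hf1 : IsDiffeo 1 M f f' := hf.of_le' (by exact_mod_cast (by norm_num : (1 : ℕ) ≤ 2))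
  obtain ⟨ν, hν⟩ : ∃ ν : ℝ, ν = 1 / (k : ℝ) := ⟨_, rfl⟩
  have hk0 : (0 : ℝ) < k := by exact_mod_cast hk
  have hC0 : (0 : ℝ) < C := by exact_mod_cast hC
  have hν0 : 0 < ν := by rw [hν]; positivity
  obtain ⟨Cc, ρ0, n0, hCc, hρ0, hest⟩ :=
    ret_unif hRTA hSV hf hfm hPH (show 0 < ν / (4 * C) by positivity)
  refine ⟨n0, ?_⟩
  have hfin : ∀ A : Set (E K), m A ≠ ⊤ := fun A =>
    ne_top_of_le_ne_top hSV.finite (measure_mono (subset_univ A))
  -- the radii tend to zero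
  have hlim : Tendsto (fun i : ℕ => ((1 / 2 : ℝ) ^ i) ^ ν) atTop (𝓝 0) := by
    have h1 : Tendsto (fun i : ℕ => (1 / 2 : ℝ) ^ i) atTop (𝓝 0) :=
      tendsto_pow_atTop_nhds_zero_of_lt_one (by norm_num) (by norm_num)
    have h2 := h1.rpow_const (p := ν) (Or.inr hν0.le)
    rw [Real.zero_rpow hν0.ne'] at h2
    exact h2
  obtain ⟨i0, hi0⟩ := eventually_atTop.1 (hlim.eventually (gt_mem_nhds hρ0))
  let G : ℕ → Set (E K) := fun i => ⋃ n ∈ Finset.Icc n0 (C * (i + 1)), ⋃ j ∈ Finset.range (n + 1),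
    {x | x ∈ M ∧ ‖f^[n - j] x - f'^[j] x‖ ≤ ((1 / 2 : ℝ) ^ i) ^ ν}
  have hG : ∀ i, i0 ≤ i → (m (G i)).toReal ≤ (C * (i + 1) + 1) ^ 2 *
      (Cc * Real.exp (ν * (i + 1) / 4) * ((1 / 2 : ℝ) ^ i) ^ ν) := by
    intro i hi
    have hρi : 0 < ((1 / 2 : ℝ) ^ i) ^ ν := by positivity
    have h1 : ∀ n ∈ Finset.Icc n0 (C * (i + 1)), ∀ j ∈ Finset.range (n + 1),
        (m {x | x ∈ M ∧ ‖f^[n - j] x - f'^[j] x‖ ≤ ((1 / 2 : ℝ) ^ i) ^ ν}).toReal ≤
          Cc * Real.exp (ν * (i + 1) / 4) * ((1 / 2 : ℝ) ^ i) ^ ν := by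
      intro n hn j hj
      rw [Finset.mem_Icc] at hn
      rw [Finset.mem_range] at hj
      rw [meas_shift hMS hSV hf1 hfm n j (by omega)]
      refine (hest n hn.1 _ hρi (hi0 i hi).le).trans ?_
      refine mul_le_mul_of_nonneg_right (mul_le_mul_of_nonneg_left (Real.exp_le_exp.2 ?_) hCc)
        hρi.le
      have h2 : (n : ℝ) ≤ C * (i + 1) := by exact_mod_cast hn.2
      calc ν / (4 * C) * n ≤ ν / (4 * C) * (C * (i + 1)) :=
            mul_le_mul_of_nonneg_left h2 (by positivity)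
        _ = ν * (i + 1) / 4 := by field_simp
    obtain ⟨T, hT⟩ : ∃ T : ℝ, T = Cc * Real.exp (ν * (i + 1) / 4) * ((1 / 2 : ℝ) ^ i) ^ ν :=
      ⟨_, rfl⟩
    have hT0 : 0 ≤ T := by rw [hT]; positivity
    rw [← hT] at h1 ⊢
    calc (m (G i)).toReal ≤ ∑ n ∈ Finset.Icc n0 (C * (i + 1)), (m (⋃ j ∈ Finset.range (n + 1),
          {x | x ∈ M ∧ ‖f^[n - j] x - f'^[j] x‖ ≤ ((1 / 2 : ℝ) ^ i) ^ ν})).toReal :=
          measureReal_biUnion_finset_le _ _
      _ ≤ ∑ n ∈ Finset.Icc n0 (C * (i + 1)), (C * (i + 1) + 1) * T := by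
          refine Finset.sum_le_sum fun n hn => ?_
          refine (measureReal_biUnion_finset_le _ _).trans ?_
          refine (Finset.sum_le_sum fun j hj => h1 n hn j hj).trans ?_
          rw [Finset.sum_const, Finset.card_range, nsmul_eq_mul]
          refine mul_le_mul_of_nonneg_right ?_ hT0
          rw [Finset.mem_Icc] at hn
          exact_mod_cast Nat.succ_le_succ hn.2
      _ = ((Finset.Icc n0 (C * (i + 1))).card : ℝ) * ((C * (i + 1) + 1) * T) := by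
          rw [Finset.sum_const, nsmul_eq_mul]
      _ ≤ (C * (i + 1) + 1) * ((C * (i + 1) + 1) * T) := by
          refine mul_le_mul_of_nonneg_right ?_ (by positivity)
          have h3 : (Finset.Icc n0 (C * (i + 1))).card ≤ C * (i + 1) + 1 := by
            rw [Nat.card_Icc]
            omega
          exact_mod_cast h3
      _ = (C * (i + 1) + 1) ^ 2 * T := by ring
  have hsum := summ_aux hν0 C Cc hC0.le hCc
  have hBC : ∑' i, m (G (i + i0)) ≠ ⊤ := by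
    have h1 := (summable_nat_add_iff i0).2 hsum
    refine ne_top_of_le_ne_top h1.tsum_ofReal_ne_top (ENNReal.tsum_le_tsum fun i => ?_)
    rw [← ENNReal.ofReal_toReal (hfin (G (i + i0)))]
    exact ENNReal.ofReal_le_ofReal (hG (i + i0) (Nat.le_add_left _ _))
  filter_upwards [ae_eventually_notMem hBC] with x hx
  obtain ⟨I1, hI1⟩ := eventually_atTop.1 hx
  refine ⟨I1 + i0, fun i hi n j hn hn2 hj hxM => ?_⟩
  by_contra hcon
  push Not at hcon
  apply hI1 (i - i0) (by omega)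
  have h1 : i - i0 + i0 = i := by omega
  rw [h1]
  refine mem_iUnion₂.2 ⟨n, Finset.mem_Icc.2 ⟨hn, hn2⟩, mem_iUnion₂.2 ⟨j,
    Finset.mem_range.2 (by omega), hxM, ?_⟩⟩
  rw [hν]
  exact hcon

theorem nr5 : StmtRTA → StmtNM → StmtMS → StmtNR5 := by
  intro hRTA hNM hMS N K M m f f' P hSV hf hfm hPH
  have hf1 : IsDiffeo 1 M f f' := hf.of_le' (by exact_mod_cast (by norm_num : (1 : ℕ) ≤ 2))
  have hfix := fun C k hC hk => ae_fix hRTA hMS hSV hf hfm hPH C k hC hk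
  choose n0 hn0 using hfix
  have hall : ∀ᵐ x ∂m, ∀ (C k : ℕ) (hC : 1 ≤ C) (hk : 1 ≤ k), ∃ I0 : ℕ, ∀ i : ℕ, I0 ≤ i →
      ∀ n j : ℕ, n0 C k hC hk ≤ n → n ≤ C * (i + 1) → j ≤ n →
      x ∈ M → ((1 / 2 : ℝ) ^ i) ^ (1 / (k : ℝ)) < ‖f^[n - j] x - f'^[j] x‖ := by
    rw [ae_all_iff]
    intro C
    rw [ae_all_iff]
    intro k
    by_cases hC : 1 ≤ C
    · by_cases hk : 1 ≤ k
      · filter_upwards [hn0 C k hC hk] with x hx hC' hk'
        exact hx
      · exact ae_of_all _ fun x _ hk' => absurd hk' hk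
    · exact ae_of_all _ fun x hC' => absurd hC' hC
  have hM : ∀ᵐ x ∂m, x ∈ M := by
    rw [ae_iff]
    exact hSV.null
  filter_upwards [hall, hM, hNM N K M m f f' P hSV hf1 hPH] with x hx hxM hper
  intro C1 ν hν
  -- natural constants
  obtain ⟨C, hC⟩ := exists_nat_ge (max C1 1)
  have hCC1 : C1 ≤ C := (le_max_left _ _).trans hC
  have hC1 : 1 ≤ C := by exact_mod_cast (le_max_right C1 1).trans hC
  obtain ⟨k, hk⟩ := exists_nat_gt (1 / ν)
  have hk0 : (0 : ℝ) < k := lt_trans (by positivity) hk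
  have hk1 : 1 ≤ k := by exact_mod_cast hk0
  have hkν : 1 / (k : ℝ) ≤ ν := by
    rw [div_le_iff₀ hk0]
    rw [div_lt_iff₀ hν] at hk
    linarith
  obtain ⟨I0, hI0⟩ := hx C k hC1 hk1
  -- the finitely many short times
  obtain ⟨c, hc0, hc⟩ : ∃ c : ℝ, 0 < c ∧ ∀ n j : ℕ, 1 ≤ n → n < n0 C k hC1 hk1 → j ≤ n →
      c ≤ ‖f^[n - j] x - f'^[j] x‖ := by
    have hpos : ∀ n j : ℕ, 1 ≤ n → j ≤ n → 0 < ‖f^[n - j] x - f'^[j] x‖ := by
      intro n j hn hj
      rw [norm_pos_iff, sub_ne_zero]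
      intro h
      apply hper n hn
      have h1 : f^[j] (f^[n - j] x) = x := by
        rw [h]
        exact (iter_diffeo hf1 j).right x hxM
      rw [← Function.iterate_add_apply, Nat.add_sub_cancel' hj] at h1
      exact h1
    obtain ⟨S, hS⟩ : ∃ S : Finset (ℕ × ℕ), S = ((Finset.range (n0 C k hC1 hk1)) ×ˢ
        (Finset.range (n0 C k hC1 hk1))).filter (fun q => 1 ≤ q.1 ∧ q.2 ≤ q.1) := ⟨_, rfl⟩
    rcases S.eq_empty_or_nonempty with hSe | hSn
    · refine ⟨1, one_pos, fun n j hn hn2 hj => ?_⟩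
      have : (n, j) ∈ S := by
        rw [hS, Finset.mem_filter, Finset.mem_product, Finset.mem_range, Finset.mem_range]
        exact ⟨⟨hn2, lt_of_le_of_lt hj hn2⟩, hn, hj⟩
      rw [hSe] at this
      simp at this
    · refine ⟨S.inf' hSn (fun q => ‖f^[q.1 - q.2] x - f'^[q.2] x‖), ?_, fun n j hn hn2 hj => ?_⟩
      · rw [Finset.lt_inf'_iff]
        intro q hq
        rw [hS, Finset.mem_filter] at hq
        exact hpos q.1 q.2 hq.2.1 hq.2.2
      · have : (n, j) ∈ S := by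
          rw [hS, Finset.mem_filter, Finset.mem_product, Finset.mem_range, Finset.mem_range]
          exact ⟨⟨hn2, lt_of_le_of_lt hj hn2⟩, hn, hj⟩
        exact Finset.inf'_le (fun q : ℕ × ℕ => ‖f^[q.1 - q.2] x - f'^[q.2] x‖) this
  -- small radii
  have hlim : Tendsto (fun R : ℝ => R ^ ν) (𝓝 0) (𝓝 0) := by
    have h2 : Tendsto (fun R : ℝ => R ^ ν) (𝓝 0) (𝓝 ((0 : ℝ) ^ ν)) :=
      Real.continuousAt_rpow_const 0 ν (Or.inr hν.le)
    rw [Real.zero_rpow hν.ne'] at h2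
    exact h2
  obtain ⟨δ, hδ, hδc⟩ := Metric.eventually_nhds_iff.1 (hlim.eventually (gt_mem_nhds hc0))
  refine ⟨min (δ / 2) ((1 / 2) ^ (I0 + 1)), lt_min (by positivity) (by positivity),
    fun R hR hRle n j hn hnR hj => ?_⟩
  have hR1 : R ≤ (1 / 2) ^ (I0 + 1) := hRle.trans (min_le_right _ _)
  have hRone : R ≤ 1 := hR1.trans (pow_le_one₀ (by norm_num) (by norm_num))
  rcases Nat.lt_or_ge n (n0 C k hC1 hk1) with h | h
  · refine lt_of_lt_of_le ?_ (hc n j hn h hj)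
    apply hδc
    rw [Real.dist_eq, sub_zero, abs_of_pos hR]
    have := hRle.trans (min_le_left _ _)
    linarith
  · obtain ⟨i, hi1, hi2⟩ := exists_nat_pow_near_of_lt_one hR hRone
      (show (0 : ℝ) < 1 / 2 by norm_num) (by norm_num)
    have hiI : I0 ≤ i := by
      have h1 : (1 / 2 : ℝ) ^ (i + 1) < (1 / 2) ^ (I0 + 1) := hi1.trans_le hR1
      have h2 := (pow_lt_pow_iff_right_of_lt_one₀ (show (0 : ℝ) < 1 / 2 by norm_num)
        (by norm_num)).1 h1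
      omega
    have hlog : Real.log (1 / R) ≤ i + 1 := by
      have h1 : 1 / R ≤ 2 ^ (i + 1) := by
        rw [div_le_iff₀ hR]
        have h2 : (2 : ℝ) ^ (i + 1) * (1 / 2) ^ (i + 1) = 1 := by
          rw [← mul_pow]
          norm_num
        have h3 : (2 : ℝ) ^ (i + 1) * (1 / 2) ^ (i + 1) ≤ 2 ^ (i + 1) * R :=
          mul_le_mul_of_nonneg_left hi1.le (by positivity)
        linarith
      calc Real.log (1 / R) ≤ Real.log (2 ^ (i + 1)) :=
            Real.log_le_log (by positivity) h1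
        _ = (i + 1 : ℕ) * Real.log 2 := by rw [Real.log_pow]
        _ ≤ (i + 1 : ℕ) * 1 := by
            refine mul_le_mul_of_nonneg_left ?_ (by positivity)
            have := Real.log_two_lt_d9
            linarith
        _ = i + 1 := by push_cast; ring
    have hlog0 : 0 ≤ Real.log (1 / R) := Real.log_nonneg (by rw [le_div_iff₀ hR]; linarith)
    have hnC : n ≤ C * (i + 1) := by
      have h1 : (n : ℝ) ≤ C * (i + 1) := by
        calc (n : ℝ) ≤ C1 * Real.log (1 / R) := hnR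
          _ ≤ C * Real.log (1 / R) := mul_le_mul_of_nonneg_right hCC1 hlog0
          _ ≤ C * (i + 1) := mul_le_mul_of_nonneg_left hlog (by positivity)
      exact_mod_cast h1
    refine lt_of_le_of_lt ?_ (hI0 i hiI n j h hnC hj hxM)
    calc R ^ ν ≤ R ^ (1 / (k : ℝ)) := Real.rpow_le_rpow_of_exponent_ge hR hRone hkν
      _ ≤ ((1 / 2 : ℝ) ^ i) ^ (1 / (k : ℝ)) := Real.rpow_le_rpow hR.le hi2 (by positivity)

end nr5

end Pool.Agent.Helper62.RZ
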